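import Pool.Agent.Q272.Sp.Values

/-! The arithmetic of the two quadratic forms. -/

namespace Q272.Sp

open Finset

theorem mod_right6 {n : ℕ} (hn : Odd n) : jacobiSym 6 n = jacobiSym 6 (n % 24) := by
  have := jacobiSym.mod_right 6 hn
  simpa using this

/-- Table of `(6/|z|)`. -/
theorem table {z : ℤ} (h2 : z % 2 = 1) (h3 : z % 3 ≠ 0) :
    ((z % 24 = 1 ∨ z % 24 = 5 ∨ z % 24 = 19 ∨ z % 24 = 23) ∧ jacobiSym 6 z.natAbs = 1) ∨
    ((z % 24 = 7 ∨ z % 24 = 11 ∨ z % 24 = 13 ∨ z % 24 = 17) ∧ jacobiSym 6 z.natAbs = -1) := by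
  have hodd : Odd z.natAbs := by
    rw [Nat.odd_iff]; omega
  rw [mod_right6 hodd]
  have h1 : z.natAbs % 24 = 1 ∨ z.natAbs % 24 = 5 ∨ z.natAbs % 24 = 7 ∨ z.natAbs % 24 = 11 ∨
      z.natAbs % 24 = 13 ∨ z.natAbs % 24 = 17 ∨ z.natAbs % 24 = 19 ∨ z.natAbs % 24 = 23 := by
    omega
  have j1 : jacobiSym 6 1 = 1 := by norm_num
  have j5 : jacobiSym 6 5 = 1 := by norm_num
  have j7 : jacobiSym 6 7 = -1 := by norm_num
  have j11 : jacobiSym 6 11 = -1 := by norm_num
  have j13 : jacobiSym 6 13 = -1 := by norm_num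
  have j17 : jacobiSym 6 17 = -1 := by norm_num
  have j19 : jacobiSym 6 19 = 1 := by norm_num
  have j23 : jacobiSym 6 23 = 1 := by norm_num
  rcases h1 with h | h | h | h | h | h | h | h <;> rw [h]
  · left; exact ⟨by omega, j1⟩
  · left; exact ⟨by omega, j5⟩
  · right; exact ⟨by omega, j7⟩
  · right; exact ⟨by omega, j11⟩
  · right; exact ⟨by omega, j13⟩
  · right; exact ⟨by omega, j17⟩
  · left; exact ⟨by omega, j19⟩
  · left; exact ⟨by omega, j23⟩

/-- Infinite descent: `(6/G) = 1` for suitable divisors of `3y² - 2d²`. -/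
theorem descent (N : ℕ) : ∀ (d y : ℤ) (G : ℕ) (g' : ℤ), d.natAbs = N → d ≠ 0 → Odd G → ¬ 3 ∣ G →
    (G : ℤ) * g' = 3 * y ^ 2 - 2 * d ^ 2 →
    (∀ q : ℕ, q.Prime → (q : ℤ) ∣ d → (q : ℤ) ∣ y → q ∣ G → (q : ℤ) ∣ g' → False) →
    jacobiSym 6 G = 1 := by
  induction N using Nat.strong_induction_on with
  | _ N ih =>
    intro d y G g' hN hd hG h3 heq hcop
    by_cases hex : ∃ q : ℕ, q.Prime ∧ (q : ℤ) ∣ d ∧ (q : ℤ) ∣ y
    · obtain ⟨q, hq, ⟨d2, hd2⟩, ⟨y2, hy2⟩⟩ := hex
      have hqZ : (q : ℤ) ≠ 0 := by exact_mod_cast hq.ne_zero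
      have hd20 : d2 ≠ 0 := by rintro rfl; rw [mul_zero] at hd2; exact hd hd2
      have hlt : d2.natAbs < N := by
        rw [← hN, hd2, Int.natAbs_mul, Int.natAbs_natCast]
        have h1 : 0 < d2.natAbs := Int.natAbs_pos.2 hd20
        have h2 := hq.two_le
        nlinarith
      by_cases hqG : q ∣ G
      · have hqg : ¬ (q : ℤ) ∣ g' := fun h => hcop q hq ⟨d2, hd2⟩ ⟨y2, hy2⟩ hqG h
        have hprimeZ : Prime (q : ℤ) := Nat.prime_iff_prime_int.1 hq
        have hsq : (q : ℤ) ^ 2 ∣ (G : ℤ) := by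
          have h1 : (q : ℤ) ^ 2 ∣ (G : ℤ) * g' := by
            rw [heq, hd2, hy2]
            exact ⟨3 * y2 ^ 2 - 2 * d2 ^ 2, by ring⟩
          have h2 : IsCoprime ((q : ℤ) ^ 2) g' := by
            apply IsCoprime.pow_left
            exact (Prime.coprime_iff_not_dvd hprimeZ).2 hqg
          exact h2.dvd_of_dvd_mul_right h1
        have hsqN : q ^ 2 ∣ G := by exact_mod_cast hsq
        obtain ⟨G2, hG2⟩ := hsqN
        have hq2 : q ≠ 2 := by
          rintro rfl
          rw [Nat.odd_iff] at hG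
          omega
        have hq3 : q ≠ 3 := by
          rintro rfl
          exact h3 hqG
        have hG2odd : Odd G2 := by
          rw [hG2] at hG
          exact (Nat.odd_mul.1 hG).2
        have hG23 : ¬ 3 ∣ G2 := by
          intro h
          apply h3
          rw [hG2]
          exact Dvd.dvd.mul_left h _
        have heq2 : (G2 : ℤ) * g' = 3 * y2 ^ 2 - 2 * d2 ^ 2 := by
          have h1 : (q : ℤ) ^ 2 * ((G2 : ℤ) * g') = (q : ℤ) ^ 2 * (3 * y2 ^ 2 - 2 * d2 ^ 2) := by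
            have : ((G : ℕ) : ℤ) = (q : ℤ) ^ 2 * G2 := by rw [hG2]; push_cast; ring
            rw [this, hd2, hy2] at heq
            linear_combination heq
          exact mul_left_cancel₀ (pow_ne_zero 2 hqZ) h1
        have hJ := ih _ hlt d2 y2 G2 g' rfl hd20 hG2odd hG23 heq2
          (fun r hr h1 h2 h4 h5 => hcop r hr (hd2 ▸ Dvd.dvd.mul_left h1 _)
            (hy2 ▸ Dvd.dvd.mul_left h2 _) (hG2 ▸ Dvd.dvd.mul_left h4 _) h5)
        have : NeZero q := ⟨hq.ne_zero⟩
        have : NeZero G2 := ⟨by rintro rfl; rw [mul_zero] at hG2; rw [hG2] at hG; simp at hG⟩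
        have hgcd : Int.gcd 6 q = 1 := by
          have h1 : Nat.Coprime 6 q := by
            rw [show 6 = 2 * 3 by norm_num]
            exact Nat.Coprime.mul_left ((Nat.coprime_primes Nat.prime_two hq).2 hq2.symm)
              ((Nat.coprime_primes Nat.prime_three hq).2 hq3.symm)
          exact_mod_cast h1
        rw [hG2, sq, mul_assoc, jacobiSym.mul_right, jacobiSym.mul_right, hJ, mul_one, ← sq]
        exact jacobiSym.sq_one hgcd
      · have hprimeZ : Prime (q : ℤ) := Nat.prime_iff_prime_int.1 hq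
        have hqGZ : ¬ (q : ℤ) ∣ (G : ℤ) := by exact_mod_cast hqG
        have hsq : (q : ℤ) ^ 2 ∣ g' := by
          have h1 : (q : ℤ) ^ 2 ∣ (G : ℤ) * g' := by
            rw [heq, hd2, hy2]
            exact ⟨3 * y2 ^ 2 - 2 * d2 ^ 2, by ring⟩
          have h2 : IsCoprime ((q : ℤ) ^ 2) (G : ℤ) := by
            apply IsCoprime.pow_left
            exact (Prime.coprime_iff_not_dvd hprimeZ).2 hqGZ
          exact h2.dvd_of_dvd_mul_left h1
        obtain ⟨g2, hg2⟩ := hsq
        have heq2 : (G : ℤ) * g2 = 3 * y2 ^ 2 - 2 * d2 ^ 2 := by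
          have h1 : (q : ℤ) ^ 2 * ((G : ℤ) * g2) = (q : ℤ) ^ 2 * (3 * y2 ^ 2 - 2 * d2 ^ 2) := by
            rw [hg2, hd2, hy2] at heq
            linear_combination heq
          exact mul_left_cancel₀ (pow_ne_zero 2 hqZ) h1
        exact ih _ hlt d2 y2 G g2 rfl hd20 hG h3 heq2
          (fun r hr h1 h2 h4 h5 => hcop r hr (hd2 ▸ Dvd.dvd.mul_left h1 _)
            (hy2 ▸ Dvd.dvd.mul_left h2 _) h4 (hg2 ▸ Dvd.dvd.mul_left h5 _))
    · -- coprime case
      have hno : ∀ q : ℕ, q.Prime → (q : ℤ) ∣ d → ¬ (q : ℤ) ∣ y := fun q hq h1 h2 =>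
        hex ⟨q, hq, h1, h2⟩
      have hGd : Int.gcd d G = 1 := by
        by_contra hne
        obtain ⟨q, hq, hqd⟩ := Nat.exists_prime_and_dvd hne
        have h1 : (q : ℤ) ∣ d := (Int.natCast_dvd_natCast.2 hqd).trans (Int.gcd_dvd_left _ _)
        have h2 : (q : ℤ) ∣ (G : ℤ) := (Int.natCast_dvd_natCast.2 hqd).trans (Int.gcd_dvd_right _ _)
        have hprimeZ : Prime (q : ℤ) := Nat.prime_iff_prime_int.1 hq
        have h5 : (q : ℤ) ∣ 3 * y ^ 2 := by
          have : 3 * y ^ 2 = (G : ℤ) * g' + 2 * d ^ 2 := by linarith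
          rw [this]
          exact dvd_add (Dvd.dvd.mul_right h2 _) (Dvd.dvd.mul_left (dvd_pow h1 two_ne_zero) _)
        rcases hprimeZ.dvd_or_dvd h5 with h6 | h6
        · have h7 : q ∣ 3 := by exact_mod_cast h6
          have h8 : q = 3 := (Nat.prime_dvd_prime_iff_eq hq Nat.prime_three).1 h7
          rw [h8] at h2
          exact h3 (by exact_mod_cast h2)
        · exact hno q hq h1 (hprimeZ.dvd_of_dvd_pow h6)
      have hGy : Int.gcd y G = 1 := by
        by_contra hne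
        obtain ⟨q, hq, hqd⟩ := Nat.exists_prime_and_dvd hne
        have h1 : (q : ℤ) ∣ y := (Int.natCast_dvd_natCast.2 hqd).trans (Int.gcd_dvd_left _ _)
        have h2 : (q : ℤ) ∣ (G : ℤ) := (Int.natCast_dvd_natCast.2 hqd).trans (Int.gcd_dvd_right _ _)
        have hprimeZ : Prime (q : ℤ) := Nat.prime_iff_prime_int.1 hq
        have h5 : (q : ℤ) ∣ 2 * d ^ 2 := by
          have : 2 * d ^ 2 = 3 * y ^ 2 - (G : ℤ) * g' := by linarith
          rw [this]
          exact dvd_sub (Dvd.dvd.mul_left (dvd_pow h1 two_ne_zero) _) (Dvd.dvd.mul_right h2 _)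
        rcases hprimeZ.dvd_or_dvd h5 with h6 | h6
        · have h7 : q ∣ 2 := by exact_mod_cast h6
          have h8 : q = 2 := (Nat.prime_dvd_prime_iff_eq hq Nat.prime_two).1 h7
          rw [h8] at h2
          have h9 : 2 ∣ G := by exact_mod_cast h2
          rw [Nat.odd_iff] at hG
          omega
        · exact hno q hq (hprimeZ.dvd_of_dvd_pow h6) h1
      have hJ1 : jacobiSym (3 * y ^ 2) G = jacobiSym (2 * d ^ 2) G := by
        apply jacobiSym.mod_left'
        apply Int.ModEq.symm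
        rw [Int.modEq_iff_dvd]
        exact ⟨g', by rw [heq]⟩
      rw [jacobiSym.mul_left, jacobiSym.mul_left, jacobiSym.sq_one' hGd, jacobiSym.sq_one' hGy,
        mul_one, mul_one] at hJ1
      rw [show (6:ℤ) = 2 * 3 by norm_num, jacobiSym.mul_left, hJ1, ← sq]
      apply jacobiSym.sq_one
      have h1 : Nat.Coprime 2 G := (Nat.coprime_two_left).2 hG
      exact_mod_cast h1

end Q272.Sp
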