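import Pool.Agent.Q272.Sp.Arith

/-! Representation `p = c² + 2d²` and the comparison with `p = 16x² + 3y²`. -/

namespace Q272.Sp

open Finset

theorem exists_cd {p : ℕ} [Fact p.Prime] (hp3 : 3 < p) (hm2 : quadraticChar (ZMod p) (-2) = 1) :
    ∃ c d : ℕ, p = c ^ 2 + 2 * d ^ 2 := by
  classical
  have hp := (Fact.out : p.Prime)
  have hne : (-2 : ZMod p) ≠ 0 := by
    intro h
    rw [h, quadraticChar_zero] at hm2
    norm_num at hm2
  obtain ⟨s, hs⟩ := (quadraticChar_one_iff_isSquare hne).1 hm2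
  set k := Nat.sqrt p with hk
  have hkk : k * k ≤ p := Nat.sqrt_le p
  have hk1 : p < (k + 1) * (k + 1) := Nat.lt_succ_sqrt p
  have hklt : k * k < p := by
    rcases hkk.lt_or_eq with h | h
    · exact h
    · exfalso
      have : ¬ p.Prime := by
        rw [← h]
        exact Nat.not_prime_mul (by rintro h1; rw [h1] at h; omega)
          (by rintro h1; rw [h1] at h; omega)
      exact this hp
  have hcard : (univ : Finset (ZMod p)).card < ((range (k + 1)) ×ˢ (range (k + 1))).card := by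
    rw [card_product, card_range, card_univ, ZMod.card]
    exact hk1
  obtain ⟨a, ha, b, hb, hab, heq⟩ := Finset.exists_ne_map_eq_of_card_lt_of_maps_to hcard
    (f := fun q : ℕ × ℕ => ((q.1 : ZMod p) - s * q.2)) (fun _ _ => mem_univ _)
  rw [mem_product, mem_range, mem_range] at ha hb
  set C : ℤ := (a.1 : ℤ) - b.1 with hC
  set D : ℤ := (a.2 : ℤ) - b.2 with hD
  have hCD : ((C : ℤ) : ZMod p) = s * D := by
    rw [hC, hD]
    push_cast
    linear_combination heq
  have hdvd : (p : ℤ) ∣ C ^ 2 + 2 * D ^ 2 := by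
    rw [← ZMod.intCast_zmod_eq_zero_iff_dvd]
    push_cast
    rw [hCD]
    linear_combination (-(D : ZMod p) ^ 2) * hs
  have hCb : C ^ 2 ≤ k * k := by
    have h1 : |C| ≤ k := by rw [hC, abs_le]; constructor <;> omega
    rw [← sq_abs]
    nlinarith [abs_nonneg C]
  have hDb : D ^ 2 ≤ k * k := by
    have h1 : |D| ≤ k := by rw [hD, abs_le]; constructor <;> omega
    rw [← sq_abs]
    nlinarith [abs_nonneg D]
  have hpos : 0 < C ^ 2 + 2 * D ^ 2 := by
    by_contra hcon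
    have h1 : C ^ 2 = 0 := by nlinarith [sq_nonneg C, sq_nonneg D]
    have h2 : D ^ 2 = 0 := by nlinarith [sq_nonneg C, sq_nonneg D]
    have h3 : C = 0 := by simpa using h1
    have h4 : D = 0 := by simpa using h2
    apply hab
    apply Prod.ext
    · omega
    · omega
  obtain ⟨q, hq⟩ := hdvd
  have hkZ : (k : ℤ) * k < p := by exact_mod_cast hklt
  have hpZ : (0:ℤ) < p := by omega
  have hq0 : 0 < q := by
    by_contra hcon
    rw [not_lt] at hcon
    nlinarith
  have hq3 : q < 3 := by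
    by_contra hcon
    rw [not_lt] at hcon
    nlinarith
  have hcases : q = 1 ∨ q = 2 := by omega
  rcases hcases with rfl | rfl
  · refine ⟨C.natAbs, D.natAbs, ?_⟩
    have : (p : ℤ) = (C.natAbs : ℤ) ^ 2 + 2 * (D.natAbs : ℤ) ^ 2 := by
      rw [Int.natCast_natAbs, Int.natCast_natAbs, sq_abs, sq_abs]
      linarith
    exact_mod_cast this
  · have hCe : (2:ℤ) ∣ C := by
      have h1 : (2:ℤ) ∣ C ^ 2 := ⟨p - D ^ 2, by linarith⟩
      exact Int.prime_two.dvd_of_dvd_pow h1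
    obtain ⟨C', hC'⟩ := hCe
    refine ⟨D.natAbs, C'.natAbs, ?_⟩
    have : (p : ℤ) = (D.natAbs : ℤ) ^ 2 + 2 * (C'.natAbs : ℤ) ^ 2 := by
      rw [Int.natCast_natAbs, Int.natCast_natAbs, sq_abs, sq_abs]
      rw [hC'] at hq
      linarith
    exact_mod_cast this

/-- The arithmetic identity. -/
theorem arith {p : ℕ} [Fact p.Prime] {m : ℕ} (hp : p = 24 * m + 19) {x y : ℤ}
    (hxy : (p : ℤ) = (4 * x) ^ 2 + 3 * y ^ 2) :
    ∃ s0 : ZMod p, s0 ^ 2 = -2 ∧ quadraticChar (ZMod p) (2 + s0) = (-1) ^ x.natAbs := by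
  have hprime := (Fact.out : p.Prime)
  obtain ⟨c2, c3, cm1⟩ := chi_facts hp
  have hm2 : quadraticChar (ZMod p) (-2) = 1 := by
    rw [show (-2 : ZMod p) = (-1) * 2 by ring, map_mul, cm1, c2]; norm_num
  obtain ⟨c, d, hcd⟩ := exists_cd (p := p) (by omega) hm2
  -- parity and divisibility by 3
  have hc2 : c % 2 = 1 := by
    by_contra hcon
    have h0 : c % 2 = 0 := by omega
    have h1 : c ^ 2 % 2 = 0 := by rw [Nat.pow_mod, h0]
    omega
  have hc8 : c ^ 2 % 8 = 1 := by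
    have : c % 8 = 1 ∨ c % 8 = 3 ∨ c % 8 = 5 ∨ c % 8 = 7 := by omega
    rcases this with h | h | h | h <;> rw [Nat.pow_mod, h]
  have hd2 : d % 2 = 1 := by
    by_contra hcon
    have h0 : d % 2 = 0 := by omega
    have h1 : d ^ 2 % 4 = 0 := by
      have : d % 4 = 0 ∨ d % 4 = 2 := by omega
      rcases this with h | h <;> rw [Nat.pow_mod, h]
    omega
  have hd3 : d % 3 = 0 := by
    have h1 : c ^ 2 % 3 = 0 ∨ c ^ 2 % 3 = 1 := by
      have : c % 3 = 0 ∨ c % 3 = 1 ∨ c % 3 = 2 := by omega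
      rcases this with h | h | h <;> simp [Nat.pow_mod, h]
    by_contra hcon
    have h2 : d ^ 2 % 3 = 1 := by
      have : d % 3 = 1 ∨ d % 3 = 2 := by omega
      rcases this with h | h <;> simp [Nat.pow_mod, h]
    omega
  have hc3 : c % 3 ≠ 0 := by
    intro h
    have h1 : c ^ 2 % 3 = 0 := by rw [Nat.pow_mod, h]
    have h2 : d ^ 2 % 3 = 0 := by rw [Nat.pow_mod, hd3]
    omega
  have hx3 : x % 3 ≠ 0 := by
    intro h
    obtain ⟨z, hz⟩ := Int.dvd_of_emod_eq_zero h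
    have h1 : (3:ℤ) ∣ p := ⟨3 * (4 * z) ^ 2 + y ^ 2, by rw [hxy, hz]; ring⟩
    omega
  -- coprimality
  have hgcd : Nat.Coprime c d := by
    rw [Nat.coprime_iff_gcd_eq_one]
    by_contra hne
    obtain ⟨q, hq, hqd⟩ := Nat.exists_prime_and_dvd hne
    have h1 : q ∣ c := hqd.trans (Nat.gcd_dvd_left _ _)
    have h2 : q ∣ d := hqd.trans (Nat.gcd_dvd_right _ _)
    have h3 : q ^ 2 ∣ p := by
      rw [hcd]
      exact dvd_add (pow_dvd_pow_of_dvd h1 2) (Dvd.dvd.mul_left (pow_dvd_pow_of_dvd h2 2) _)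
    have h4 : q = p := (Nat.prime_dvd_prime_iff_eq hq hprime).1 ((dvd_pow_self q two_ne_zero).trans h3)
    rw [h4] at h3
    have h5 := Nat.le_of_dvd hprime.pos h3
    have := hprime.two_le
    nlinarith
  have hd0 : 0 < d := by omega
  have hdp : (d : ZMod p) ≠ 0 := by
    intro h
    rw [ZMod.natCast_eq_zero_iff] at h
    have h1 := Nat.le_of_dvd hd0 h
    nlinarith
  -- the square root of `-2`
  set s0 : ZMod p := (c : ZMod p) * (d : ZMod p)⁻¹ with hs0d
  have hcp : (c : ZMod p) ^ 2 + 2 * (d : ZMod p) ^ 2 = 0 := by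
    have h1 : ((c ^ 2 + 2 * d ^ 2 : ℕ) : ZMod p) = 0 := by
      rw [← hcd]; exact CharP.cast_eq_zero _ _
    push_cast at h1
    exact h1
  have hs0 : s0 ^ 2 = -2 := by
    rw [hs0d, mul_pow]
    have h1 : (c : ZMod p) ^ 2 = -2 * (d : ZMod p) ^ 2 := by linear_combination hcp
    rw [h1, mul_assoc, ← mul_pow, mul_inv_cancel₀ hdp]
    ring
  have hsd : (d : ZMod p) * (2 + s0) = ((c + 2 * d : ℕ) : ZMod p) := by
    rw [hs0d]
    push_cast
    field_simp
    ring
  refine ⟨s0, hs0, ?_⟩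
  -- values of the characters
  have hchi : ∀ a : ℕ, quadraticChar (ZMod p) (a : ZMod p) = jacobiSym a p := by
    intro a
    rw [← jacobiSym.legendreSym.to_jacobiSym, legendreSym]
    norm_cast
  have hprod : quadraticChar (ZMod p) (d : ZMod p) * quadraticChar (ZMod p) (2 + s0) =
      quadraticChar (ZMod p) ((c + 2 * d : ℕ) : ZMod p) := by
    rw [← map_mul, hsd]
  rw [hchi, hchi] at hprod
  have hpodd : Odd p := by rw [Nat.odd_iff]; omega
  have hp4 : p % 4 = 3 := by omega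
  have hdodd : Odd d := Nat.odd_iff.2 hd2
  have hmodd : Odd (c + 2 * d) := by rw [Nat.odd_iff]; omega
  have hJpd : jacobiSym p d = 1 := by
    have h1 : jacobiSym p d = jacobiSym ((c : ℤ) ^ 2) d := by
      apply jacobiSym.mod_left'
      apply Int.ModEq.symm
      rw [Int.modEq_iff_dvd]
      exact ⟨2 * d, by rw [hcd]; push_cast; ring⟩
    rw [h1]
    apply jacobiSym.sq_one'
    exact_mod_cast hgcd
  have hgcd2 : Nat.Coprime d (c + 2 * d) := by
    have h1 : Nat.Coprime d c := hgcd.symm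
    rw [Nat.Coprime, show c + 2 * d = c + d * 2 by ring, Nat.gcd_add_mul_left_right]
    exact h1
  have hJpm : jacobiSym p (c + 2 * d) = jacobiSym 6 (c + 2 * d) := by
    have h1 : jacobiSym p (c + 2 * d) = jacobiSym (6 * (d : ℤ) ^ 2) (c + 2 * d) := by
      apply jacobiSym.mod_left'
      apply Int.ModEq.symm
      rw [Int.modEq_iff_dvd]
      exact ⟨c - 2 * d, by rw [hcd]; push_cast; ring⟩
    rw [h1, jacobiSym.mul_left, jacobiSym.sq_one' (by exact_mod_cast hgcd2), mul_one]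
  have hrec : ∀ a : ℕ, Odd a → (a % 4 = 1 ∧ jacobiSym a p = jacobiSym p a) ∨
      (a % 4 = 3 ∧ jacobiSym a p = - jacobiSym p a) := by
    intro a ha
    have h1 : a % 4 = 1 ∨ a % 4 = 3 := by rw [Nat.odd_iff] at ha; omega
    rcases h1 with h1 | h1
    · left; exact ⟨h1, jacobiSym.quadratic_reciprocity_one_mod_four h1 hpodd⟩
    · right; exact ⟨h1, jacobiSym.quadratic_reciprocity_three_mod_four h1 hp4⟩
  -- the descent
  obtain ⟨c', hc', hc'x⟩ : ∃ c' : ℤ, (c' = c ∨ c' = -c) ∧ (c' - x) % 3 = 0 := by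
    have hc31 : (c : ℤ) % 3 = 1 ∨ (c : ℤ) % 3 = 2 := by omega
    have hx31 : x % 3 = 1 ∨ x % 3 = 2 := by omega
    rcases hc31 with h | h <;> rcases hx31 with h' | h'
    · exact ⟨c, Or.inl rfl, by omega⟩
    · exact ⟨-c, Or.inr rfl, by omega⟩
    · exact ⟨-c, Or.inr rfl, by omega⟩
    · exact ⟨c, Or.inl rfl, by omega⟩
  have hc'2 : c' ^ 2 = (c : ℤ) ^ 2 := by rcases hc' with h | h <;> rw [h] <;> ring
  set g : ℤ := c' + 4 * x with hg
  have hg2 : g % 2 = 1 := by rcases hc' with h | h <;> omega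
  have hg3 : g % 3 ≠ 0 := by omega
  have hprodg : g * (c' - 4 * x) = 3 * y ^ 2 - 2 * (d : ℤ) ^ 2 := by
    have h1 : g * (c' - 4 * x) = c' ^ 2 - 16 * x ^ 2 := by rw [hg]; ring
    have h2 : (c : ℤ) ^ 2 + 2 * (d : ℤ) ^ 2 = (4 * x) ^ 2 + 3 * y ^ 2 := by
      rw [← hxy, hcd]; push_cast; ring
    rw [h1, hc'2]
    linarith
  have hJg : jacobiSym 6 g.natAbs = 1 := by
    have hodd : Odd g.natAbs := by rw [Nat.odd_iff]; omega
    have h3 : ¬ 3 ∣ g.natAbs := by omega
    have hcopr : ∀ q : ℕ, q.Prime → (q : ℤ) ∣ (d : ℤ) → (q : ℤ) ∣ y → q ∣ g.natAbs →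
        (q : ℤ) ∣ (c' - 4 * x) → False := by
      intro q hq h1 h2 h4 h5
      have h6 : (q : ℤ) ∣ g := Int.natCast_dvd.2 h4
      have h7 : (q : ℤ) ∣ 2 * c' := by
        have : 2 * c' = g + (c' - 4 * x) := by rw [hg]; ring
        rw [this]; exact dvd_add h6 h5
      have hprimeZ : Prime (q : ℤ) := Nat.prime_iff_prime_int.1 hq
      rcases hprimeZ.dvd_or_dvd h7 with h8 | h8
      · have h9 : q ∣ 2 := by exact_mod_cast h8
        have h10 : q = 2 := (Nat.prime_dvd_prime_iff_eq hq Nat.prime_two).1 h9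
        rw [h10] at h4
        rw [Nat.odd_iff] at hodd
        omega
      · have h9 : (q : ℤ) ∣ (c : ℤ) := by
          rcases hc' with h | h
          · rwa [h] at h8
          · rw [h] at h8; exact (dvd_neg.1 h8)
        have h10 : q ∣ c := by exact_mod_cast h9
        have h11 : q ∣ d := by exact_mod_cast h1
        exact Nat.not_coprime_of_dvd_of_dvd hq.one_lt h10 h11 hgcd
    rcases Int.natAbs_eq g with h | h
    · refine descent (d : ℤ).natAbs d y g.natAbs (c' - 4 * x) rfl (by exact_mod_cast hd0.ne') hodd h3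
        (by rw [← h]; exact hprodg) hcopr
    · refine descent (d : ℤ).natAbs d y g.natAbs (-(c' - 4 * x)) rfl (by exact_mod_cast hd0.ne')
        hodd h3 (by rw [← hprodg]; nth_rewrite 2 [h]; ring) ?_
      intro q hq h1 h2 h4 h5
      exact hcopr q hq h1 h2 h4 ((dvd_neg.1 h5))
  -- tables
  have tg := table hg2 hg3
  have tm := table (z := ((c + 2 * d : ℕ) : ℤ)) (by omega) (by omega)
  rw [Int.natAbs_natCast] at tm
  have hgt : g % 24 = 1 ∨ g % 24 = 5 ∨ g % 24 = 19 ∨ g % 24 = 23 := by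
    rcases tg with h | h
    · exact h.1
    · exfalso; rw [hJg] at h; norm_num at h
  have hxpar : (x % 2 = 0 ∧ ((-1 : ℤ)) ^ x.natAbs = 1) ∨ (x % 2 = 1 ∧ ((-1 : ℤ)) ^ x.natAbs = -1) := by
    rcases Nat.even_or_odd x.natAbs with h | h
    · left; exact ⟨by rw [Nat.even_iff] at h; omega, h.neg_one_pow⟩
    · right; exact ⟨by rw [Nat.odd_iff] at h; omega, h.neg_one_pow⟩
  have hrd := hrec d hdodd
  have hrm := hrec (c + 2 * d) hmodd
  rw [hJpd] at hrd
  rw [hJpm] at hrm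
  rcases hrd with ⟨hd4, hrd⟩ | ⟨hd4, hrd⟩ <;> rcases hrm with ⟨hm4, hrm⟩ | ⟨hm4, hrm⟩ <;>
    rcases tm with ⟨tm1, tm2⟩ | ⟨tm1, tm2⟩ <;> rcases hxpar with ⟨hx2, hx⟩ | ⟨hx2, hx⟩ <;>
    rw [hx] <;> rw [hrd, hrm, tm2] at hprod <;>
    first
      | linarith
      | (exfalso; push_cast at tm1; rcases hc' with h | h <;> omega)

end Q272.Sp
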