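import Pool.Agent.Q272.Sp.Values

/-! Reduction modulo a prime above `p`. -/

namespace Q272.Sp

open Finset

/-- The ring of algebraic integers. -/
abbrev AI := integralClosure ℤ ℂ

theorem exists_field (p : ℕ) [Fact p.Prime] :
    ∃ (K : Type) (_ : Field K) (_ : CharP K p), Nonempty (AI →+* K) := by
  have hp := (Fact.out : p.Prime)
  have hI : Ideal.span {((p : ℕ) : AI)} ≠ ⊤ := by
    intro h
    rw [Ideal.span_singleton_eq_top] at h
    obtain ⟨y, hy⟩ := h.exists_right_inv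
    have h1 : (p : ℂ) * (y : ℂ) = 1 := by
      have := congrArg (Subtype.val) hy
      simpa using this
    have hp0 : (p : ℂ) ≠ 0 := by exact_mod_cast hp.ne_zero
    have h2 : (y : ℂ) = algebraMap ℚ ℂ ((1 : ℚ) / p) := by
      rw [map_div₀, map_one, map_natCast, eq_div_iff hp0, mul_comm]
      exact h1
    have h3 : IsIntegral ℤ (algebraMap ℚ ℂ ((1 : ℚ) / p)) := by
      rw [← h2]; exact y.2
    rw [isIntegral_algebraMap_iff (algebraMap ℚ ℂ).injective] at h3
    rw [IsIntegrallyClosed.isIntegral_iff] at h3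
    obtain ⟨z, hz⟩ := h3
    have hpq : (p : ℚ) ≠ 0 := by exact_mod_cast hp.ne_zero
    have h4 : (z : ℚ) * p = 1 := by
      have : (algebraMap ℤ ℚ) z = z := rfl
      rw [← this, hz]
      field_simp
    have h5 : z * p = 1 := by exact_mod_cast h4
    have h6 : (p : ℤ) ∣ 1 := ⟨z, by rw [← h5]; ring⟩
    have h7 : p ∣ 1 := by exact_mod_cast h6
    exact hp.one_lt.ne' (Nat.dvd_one.1 h7)
  obtain ⟨M, hM, hle⟩ := Ideal.exists_le_maximal _ hI
  letI : Field (AI ⧸ M) := Ideal.Quotient.field M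
  refine ⟨AI ⧸ M, inferInstance, ?_, ⟨Ideal.Quotient.mk M⟩⟩
  rw [CharP.charP_iff_prime_eq_zero hp]
  have : ((p : ℕ) : AI) ∈ M := hle (Ideal.mem_span_singleton_self _)
  have h8 : (Ideal.Quotient.mk M) ((p : ℕ) : AI) = 0 := Ideal.Quotient.eq_zero_iff_mem.2 this
  rwa [map_natCast] at h8

variable {p : ℕ} [Fact p.Prime] {m : ℕ} (hp : p = 24 * m + 19)
include hp

/-- Computation in a field of characteristic `p`. -/
theorem field_comp {K : Type} [Field K] [CharP K p] {t : K} (ht : t ^ 8 - t ^ 4 + 1 = 0)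
    {s0 : ZMod p} (hs0 : s0 ^ 2 = -2) :
    2 * (t ^ 2 - 1) ^ (12 * m + 9) =
      (-1) ^ m * ((quadraticChar (ZMod p) (2 + s0) : ℤ) : K) *
        ((1 + t ^ 6) * (1 + 2 * t ^ 2 - t ^ 6)) := by
  obtain ⟨c2, c3, cm1⟩ := chi_facts hp
  have hp2 : p ≠ 2 := by omega
  set n := 12 * m + 9 with hn
  have hp2n : p = 2 * n + 1 := by omega
  set ι : ZMod p →+* K := ZMod.castHom (dvd_refl p) K with hι
  have hE : ∀ u : ZMod p, (ι u) ^ n = ((quadraticChar (ZMod p) u : ℤ) : K) := by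
    intro u
    have h := quadraticChar_eq_pow_of_char_ne_two' (F := ZMod p)
      (by rwa [ZMod.ringChar_zmod_n]) u
    rw [ZMod.card] at h
    have h1 : p / 2 = n := by omega
    rw [h1] at h
    rw [← map_pow, ← h]
    simp
  have h2n : (2 : K) ^ n = -1 := by
    have h := hE 2
    rw [c2, map_ofNat] at h
    push_cast at h
    exact h
  have h3n : (3 : K) ^ n = -1 := by
    have h := hE 3
    rw [c3, map_ofNat] at h
    push_cast at h
    exact h
  have hm2n : (-2 : K) ^ n = 1 := by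
    have h := hE (-2)
    have h1 : quadraticChar (ZMod p) (-2) = 1 := by
      rw [show (-2 : ZMod p) = (-1) * 2 by ring, map_mul, cm1, c2]; norm_num
    rw [h1, map_neg, map_ofNat] at h
    push_cast at h
    exact h
  have h2ne : (2 : K) ≠ 0 := by
    intro h
    rw [h, zero_pow (by omega)] at h2n
    norm_num at h2n
  have h3ne : (3 : K) ≠ 0 := by
    intro h
    rw [h, zero_pow (by omega)] at h3n
    norm_num at h3n
  have t12 : t ^ 12 = -1 := by linear_combination (t ^ 4 + 1) * ht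
  set r := 2 * t ^ 2 - t ^ 6 with hr
  set s := t ^ 5 + t ^ 3 - t with hs
  have hr2 : r ^ 2 = 3 := by rw [hr]; linear_combination (t ^ 4 - 3) * ht
  have hs2 : s ^ 2 = -2 := by rw [hs]; linear_combination (t ^ 2 + 2) * ht
  have hsp : s ^ p = s := by
    rw [hp2n, pow_succ, pow_mul, hs2, hm2n, one_mul]
  have hrp : r ^ p = -r := by
    rw [hp2n, pow_succ, pow_mul, hr2, h3n]; ring
  have hs2n : s ^ (2 * n) = 1 := by rw [pow_mul, hs2, hm2n]
  have I1 : 2 * (t ^ 2 - 1) = t * s * (r - 1) := by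
    rw [hr, hs]; linear_combination (t ^ 4 + t ^ 2 - 2) * ht
  have I2 : (r - 1) * (2 * (s - 1)) = (r - 1 + s) ^ 2 := by
    linear_combination -hr2 - hs2
  have I3 : (r - 1 + s) * ((1 + r) * s) = 2 * (s - 1 - r) := by
    linear_combination s * hr2 + (1 + r) * hs2
  have I5 : t ^ 9 * s = -(1 + t ^ 6) := by
    rw [hs]; linear_combination (t ^ 6 + t ^ 4 + 1) * ht
  set Z := r - 1 + s with hZ
  have hZp : Z ^ p = s - 1 - r := by
    rw [hZ, add_pow_char, sub_pow_char, hrp, hsp, one_pow]; ring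
  have hZne : Z ≠ 0 := by
    intro h
    rw [h, zero_mul] at I3
    have h1 : s - 1 - r = 0 := (mul_eq_zero.1 I3.symm).resolve_left h2ne
    have h2 : 2 * r = 0 := by
      rw [hZ] at h
      linear_combination h - h1
    have h3 : r = 0 := (mul_eq_zero.1 h2).resolve_left h2ne
    rw [h3] at hr2
    apply h3ne
    linear_combination -hr2
  -- the character value
  have hku : (s * (2 * (s - 1))) ^ n = ((quadraticChar (ZMod p) (2 + s0) : ℤ) : K) := by
    have hm2 : quadraticChar (ZMod p) (-2) = 1 := by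
      rw [show (-2 : ZMod p) = (-1) * 2 by ring, map_mul, cm1, c2]; norm_num
    have hsq : (s - ι s0) * (s + ι s0) = 0 := by
      have h1 : ι s0 ^ 2 = -2 := by rw [← map_pow, hs0, map_neg, map_ofNat]
      linear_combination hs2 - h1
    rcases mul_eq_zero.1 hsq with h | h
    · have h1 : s = ι s0 := by linear_combination h
      have h2 : s * (2 * (s - 1)) = ι (-2 * (2 + s0)) := by
        rw [map_mul, map_add, map_neg, map_ofNat, ← h1]
        linear_combination 2 * hs2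
      rw [h2, hE, map_mul, hm2, one_mul]
    · have h1 : s = - ι s0 := by linear_combination h
      have h2 : s * (2 * (s - 1)) = ι (-2 * (2 - s0)) := by
        rw [map_mul, map_sub, map_neg, map_ofNat]
        linear_combination 2 * hs2 - 2 * h
      have h3 : quadraticChar (ZMod p) (2 - s0) * quadraticChar (ZMod p) (2 + s0) = 1 := by
        rw [← map_mul, show (2 - s0) * (2 + s0) = 2 * 3 by linear_combination -hs0, map_mul,
          c2, c3]
        norm_num
      have h4 : quadraticChar (ZMod p) (2 - s0) = quadraticChar (ZMod p) (2 + s0) := by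
        rcases Int.mul_eq_one_iff_eq_one_or_neg_one.1 h3 with ⟨h5, h6⟩ | ⟨h5, h6⟩ <;> rw [h5, h6]
      rw [h2, hE, map_mul, hm2, one_mul, h4]
  set κ : K := ((quadraticChar (ZMod p) (2 + s0) : ℤ) : K) with hκ
  have hκ2 : κ * κ = 1 := by
    have h1 : (2 + s0) ≠ 0 := by
      intro h
      have h2 : (2 : ZMod p) * 3 = 0 := by linear_combination (2 - s0) * h + hs0
      rcases mul_eq_zero.1 h2 with h3 | h3
      · exact (basic_ne hp).1 h3
      · exact (basic_ne hp).2 h3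
    have h2 := quadraticChar_sq_one h1
    rw [hκ, ← Int.cast_mul, ← sq, h2, Int.cast_one]
  have htn : t ^ n = (-1) ^ m * t ^ 9 := by
    rw [hn, pow_add, pow_mul, t12]
  have hmain : 2 * (2 * (t ^ 2 - 1)) ^ n * (2 * (s - 1)) ^ n = t ^ n * s ^ n * ((1 + r) * s) := by
    have h1 : 2 * (2 * (t ^ 2 - 1)) ^ n * (2 * (s - 1)) ^ n * Z =
        t ^ n * s ^ n * ((1 + r) * s) * Z := by
      calc 2 * (2 * (t ^ 2 - 1)) ^ n * (2 * (s - 1)) ^ n * Z
          = 2 * (t * s * (r - 1)) ^ n * (2 * (s - 1)) ^ n * Z := by rw [I1]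
        _ = 2 * t ^ n * s ^ n * ((r - 1) * (2 * (s - 1))) ^ n * Z := by
            rw [mul_pow, mul_pow, mul_pow (r - 1)]; ring
        _ = 2 * t ^ n * s ^ n * (Z ^ (2 * n + 1)) := by rw [I2, ← pow_mul, pow_succ]; ring
        _ = t ^ n * s ^ n * (2 * (s - 1 - r)) := by rw [← hp2n, hZp]; ring
        _ = t ^ n * s ^ n * ((1 + r) * s) * Z := by rw [← I3]; ring
    exact mul_right_cancel₀ hZne h1
  have h5 : 2 * (t ^ 2 - 1) ^ n * κ = (-1) ^ m * ((1 + t ^ 6) * (1 + r)) := by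
    have h6 : -(2 * (t ^ 2 - 1) ^ n * κ) = -((-1) ^ m * ((1 + t ^ 6) * (1 + r))) := by
      calc -(2 * (t ^ 2 - 1) ^ n * κ) = (2 * (2 * (t ^ 2 - 1)) ^ n * (2 * (s - 1)) ^ n) * s ^ n := by
            rw [← hku, mul_pow s, mul_pow 2 (t ^ 2 - 1), h2n]; ring
        _ = t ^ n * s ^ (2 * n) * ((1 + r) * s) := by rw [hmain, two_mul n, pow_add s n n]; ring
        _ = (-1) ^ m * (t ^ 9 * s) * (1 + r) := by rw [hs2n, htn]; ring
        _ = -((-1) ^ m * ((1 + t ^ 6) * (1 + r))) := by rw [I5]; ring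
    exact neg_inj.1 h6
  have h7 : 1 + 2 * t ^ 2 - t ^ 6 = 1 + r := by rw [hr]; ring
  rw [h7]
  calc 2 * (t ^ 2 - 1) ^ n = 2 * (t ^ 2 - 1) ^ n * (κ * κ) := by rw [hκ2, mul_one]
    _ = (2 * (t ^ 2 - 1) ^ n * κ) * κ := by ring
    _ = (-1) ^ m * κ * ((1 + t ^ 6) * (1 + r)) := by rw [h5]; ring

/-- The value at the primitive twelfth root of unity, with its sign. -/
theorem value_sign {t : ℂ} (ht : t ^ 8 - t ^ 4 + 1 = 0) {s0 : ZMod p} (hs0 : s0 ^ 2 = -2) :
    2 * S p 1 (t ^ 2) = (-1) ^ m * ((quadraticChar (ZMod p) (2 + s0) : ℤ) : ℂ) *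
      ((1 + t ^ 6) * (1 + 2 * t ^ 2 - t ^ 6)) := by
  obtain ⟨v1, _, _, _⟩ := values hp ht
  have hprime := (Fact.out : p.Prime)
  have t12 : t ^ 12 = -1 := by linear_combination (t ^ 4 + 1) * ht
  set W := (1 + t ^ 6) * (1 + 2 * t ^ 2 - t ^ 6) with hW
  have hW2 : (t ^ 2 - 1) * W ^ 2 = -4 * (t ^ 2 + 1) := by
    rw [hW]
    linear_combination (t ^ 18 - t ^ 16 - 3 * t ^ 14 + 3 * t ^ 12 - 4 * t ^ 8 + 5 * t ^ 6 +
      3 * t ^ 4 + t ^ 2 + 3) * ht
  have ht2 : t ^ 2 - 1 ≠ 0 := by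
    intro h
    have h1 : t ^ 2 = 1 := by linear_combination h
    have : (1:ℂ) = 0 := by linear_combination ht - (t ^ 6 + t ^ 4) * h1
    exact one_ne_zero this
  have hsq : (2 * S p 1 (t ^ 2) - W) * (2 * S p 1 (t ^ 2) + W) = 0 := by
    have h1 : (t ^ 2 - 1) * ((2 * S p 1 (t ^ 2) - W) * (2 * S p 1 (t ^ 2) + W)) = 0 := by
      linear_combination 4 * v1 - hW2
    exact (mul_eq_zero.1 h1).resolve_left ht2
  have hpm : ∃ ε : ℤ, (ε = 1 ∨ ε = -1) ∧ 2 * S p 1 (t ^ 2) = (ε : ℂ) * W := by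
    rcases mul_eq_zero.1 hsq with h | h
    · exact ⟨1, Or.inl rfl, by push_cast; linear_combination h⟩
    · exact ⟨-1, Or.inr rfl, by push_cast; linear_combination h⟩
  obtain ⟨ε, hε, hS⟩ := hpm
  -- the reduction
  obtain ⟨K, iK, iC, ⟨φ⟩⟩ := exists_field p
  have htint : IsIntegral ℤ t := by
    refine IsIntegral.of_pow (n := 12) (by norm_num) ?_
    rw [t12]
    exact (isIntegral_one (R := ℤ) (B := ℂ)).neg
  have hEint : ∀ a, IsIntegral ℤ (E p a) := fun a => by
    refine IsIntegral.of_pow hprime.pos ?_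
    rw [E_pow]
    exact isIntegral_one
  set T : AI := ⟨t, htint⟩ with hT
  set EE : ZMod p → AI := fun a => ⟨E p a, hEint a⟩ with hEE
  have hphiE : ∀ a, φ (EE a) = 1 := by
    intro a
    have h1 : EE a ^ p = 1 := by
      apply Subtype.ext
      simp only [hEE, SubmonoidClass.coe_pow, OneMemClass.coe_one]
      exact E_pow a
    have h2 : (φ (EE a) - 1) ^ p = 0 := by
      rw [sub_pow_char, ← map_pow, h1, map_one, one_pow, sub_self]
    have h3 := pow_eq_zero_iff (hprime.ne_zero) |>.1 h2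
    exact sub_eq_zero.1 h3
  have hR : 2 * ∏ a ∈ Q p 1, (T ^ 2 - EE a) = (ε : AI) * ((1 + T ^ 6) * (1 + 2 * T ^ 2 - T ^ 6)) := by
    apply Subtype.ext
    have h1 : ((∏ a ∈ Q p 1, (T ^ 2 - EE a) : AI) : ℂ) = S p 1 (t ^ 2) := by
      unfold S
      push_cast
      rfl
    have hl : ((2 * ∏ a ∈ Q p 1, (T ^ 2 - EE a) : AI) : ℂ) = 2 * S p 1 (t ^ 2) := by
      rw [← h1]; rfl
    rw [hl, hS]
    have hr : (((ε : AI) * ((1 + T ^ 6) * (1 + 2 * T ^ 2 - T ^ 6)) : AI) : ℂ) = (ε : ℂ) * W := by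
      have he : ((ε : AI) : ℂ) = (ε : ℂ) := by push_cast; rfl
      rw [← he]; rfl
    rw [hr]
  have hphi := congrArg φ hR
  simp only [map_mul, map_add, map_sub, map_one, map_pow, map_ofNat, map_intCast, map_prod, hphiE]
    at hphi
  rw [Finset.prod_const, (card_Q (p := p) (by omega)).1,
    show (p - 1) / 2 = 12 * m + 9 by omega] at hphi
  have htK : (φ T) ^ 8 - (φ T) ^ 4 + 1 = 0 := by
    have h1 : T ^ 8 - T ^ 4 + 1 = 0 := by
      apply Subtype.ext
      push_cast
      exact ht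
    have := congrArg φ h1
    simpa using this
  have hcomp := field_comp hp htK hs0
  rw [hcomp] at hphi
  -- nonvanishing
  have h2K : (2 : K) ≠ 0 := by
    have h1 : ((2 : ℕ) : K) ≠ 0 := by
      rw [Ne, CharP.cast_eq_zero_iff K p]
      intro h
      have := Nat.le_of_dvd (by norm_num) h
      omega
    exact_mod_cast h1
  set τ := φ T with hτ
  have hne : (1 + τ ^ 6) * (1 + 2 * τ ^ 2 - τ ^ 6) ≠ 0 := by
    have τ12 : τ ^ 12 = -1 := by linear_combination (τ ^ 4 + 1) * htK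
    have hr2 : (2 * τ ^ 2 - τ ^ 6) ^ 2 = 3 := by linear_combination (τ ^ 4 - 3) * htK
    intro h
    rcases mul_eq_zero.1 h with h | h
    · apply h2K
      linear_combination (1 - τ ^ 6) * h + τ12
    · apply h2K
      linear_combination (-(1 - (2 * τ ^ 2 - τ ^ 6))) * h - hr2
  have h8 := mul_right_cancel₀ hne hphi
  -- compare the signs
  set κ := quadraticChar (ZMod p) (2 + s0) with hκ
  have hκ' : κ = 1 ∨ κ = -1 := by
    apply quadraticChar_dichotomy
    intro h
    have h2 : (2 : ZMod p) * 3 = 0 := by linear_combination (2 - s0) * h + hs0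
    rcases mul_eq_zero.1 h2 with h3 | h3
    · exact (basic_ne hp).1 h3
    · exact (basic_ne hp).2 h3
  have h9 : ((((-1) ^ m * κ - ε : ℤ)) : K) = 0 := by
    push_cast
    rw [h8, sub_self]
  have h10 : (-1) ^ m * κ - ε = 0 := by
    rw [CharP.intCast_eq_zero_iff K p] at h9
    have h11 : |(-1) ^ m * κ - ε| ≤ 2 := by
      rcases neg_one_pow_eq_or ℤ m with h | h <;> rcases hκ' with h' | h' <;>
        rcases hε with h'' | h'' <;> rw [h, h', h''] <;> norm_num
    apply Int.eq_zero_of_abs_lt_dvd h9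
    have : (19:ℤ) ≤ p := by rw [hp]; push_cast; omega
    omega
  have h12 : ε = (-1) ^ m * κ := by omega
  rw [hS, h12]
  push_cast
  ring

end Q272.Sp
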