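import Mathlib

/-! Products over quadratic residues. -/

namespace Q272.Sp

open Finset

variable (p : ℕ) [Fact p.Prime]

/-- Residues with quadratic character `ε`. -/
def Q (ε : ℤ) : Finset (ZMod p) := univ.filter fun a => quadraticChar (ZMod p) a = ε

/-- The additive character. -/
noncomputable def E (a : ZMod p) : ℂ := ZMod.stdAddChar a

/-- The products. -/
noncomputable def S (ε : ℤ) (x : ℂ) : ℂ := ∏ a ∈ Q p ε, (x - E p a)

variable {p}

theorem mem_Q {ε : ℤ} {a : ZMod p} : a ∈ Q p ε ↔ quadraticChar (ZMod p) a = ε := by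
  simp [Q]

theorem ne_zero_of_mem {ε : ℤ} (hε : ε ≠ 0) {a : ZMod p} (h : a ∈ Q p ε) : a ≠ 0 := by
  rintro rfl
  rw [mem_Q, quadraticChar_zero] at h
  exact hε h.symm

theorem E_pow (a : ZMod p) : E p a ^ p = 1 := by
  unfold E
  rw [← AddChar.map_nsmul_eq_pow, nsmul_eq_mul, CharP.cast_eq_zero, zero_mul,
    AddChar.map_zero_eq_one]

theorem E_ne_zero (a : ZMod p) : E p a ≠ 0 := by
  intro h
  have := E_pow a
  rw [h, zero_pow (Fact.out : p.Prime).ne_zero] at this
  exact zero_ne_one this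

theorem E_add (a b : ZMod p) : E p (a + b) = E p a * E p b := AddChar.map_add_eq_mul _ _ _

theorem E_inj {a b : ZMod p} (h : E p a = E p b) : a = b := ZMod.injective_stdAddChar h

theorem E_nsmul (n : ℕ) (a : ZMod p) : E p (n * a) = E p a ^ n := by
  unfold E
  rw [← AddChar.map_nsmul_eq_pow, nsmul_eq_mul]

/-- Multiplication by a unit permutes the classes. -/
theorem prod_mul {ε : ℤ} {u : ZMod p} (hu : u ≠ 0) (f : ZMod p → ℂ) :
    ∏ a ∈ Q p ε, f (u * a) = ∏ a ∈ Q p (quadraticChar (ZMod p) u * ε), f a := by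
  have huu : quadraticChar (ZMod p) u * quadraticChar (ZMod p) u = 1 := by
    rw [← sq]
    exact quadraticChar_sq_one hu
  refine Finset.prod_bij' (fun a _ => u * a) (fun a _ => u⁻¹ * a) ?_ ?_ ?_ ?_ ?_
  · intro a ha
    rw [mem_Q] at ha ⊢
    rw [map_mul, ha]
  · intro a ha
    rw [mem_Q] at ha ⊢
    have h1 : quadraticChar (ZMod p) u⁻¹ = quadraticChar (ZMod p) u := by
      have h2 : quadraticChar (ZMod p) u * quadraticChar (ZMod p) u⁻¹ = 1 := by
        rw [← map_mul, mul_inv_cancel₀ hu, map_one]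
      calc quadraticChar (ZMod p) u⁻¹ = (quadraticChar (ZMod p) u * quadraticChar (ZMod p) u) *
            quadraticChar (ZMod p) u⁻¹ := by rw [huu, one_mul]
        _ = quadraticChar (ZMod p) u := by rw [mul_assoc, h2, mul_one]
    rw [map_mul, ha, h1, ← mul_assoc, huu, one_mul]
  · intro a _
    rw [← mul_assoc, inv_mul_cancel₀ hu, one_mul]
  · intro a _
    rw [← mul_assoc, mul_inv_cancel₀ hu, one_mul]
  · intros; rfl

theorem prod_all (x : ℂ) : ∏ a : ZMod p, (x - E p a) = x ^ p - 1 := by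
  have hp : 0 < p := (Fact.out : p.Prime).pos
  have hprim : IsPrimitiveRoot (E p 1) p := by
    rw [IsPrimitiveRoot.iff_def]
    refine ⟨E_pow 1, fun l hl => ?_⟩
    have h1 : E p ((l : ℕ) * 1) = E p 0 := by
      rw [E_nsmul, hl]
      exact (AddChar.map_zero_eq_one _).symm
    have h2 := E_inj h1
    rw [mul_one] at h2
    exact (ZMod.natCast_eq_zero_iff l p).1 h2
  have h := hprim.pow_sub_pow_eq_prod_sub_mul x 1 hp
  rw [one_pow] at h
  rw [h]
  have himg : (univ : Finset (ZMod p)).image (E p) = Polynomial.nthRootsFinset p (1:ℂ) := by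
    apply Finset.eq_of_subset_of_card_le
    · intro y hy
      rw [mem_image] at hy
      obtain ⟨a, _, rfl⟩ := hy
      rw [Polynomial.mem_nthRootsFinset hp]
      exact E_pow a
    · rw [Finset.card_image_of_injective _ (fun a b h => E_inj h), Finset.card_univ, ZMod.card,
        hprim.card_nthRootsFinset]
  rw [← himg, Finset.prod_image (fun a _ b _ h => E_inj h)]
  exact Finset.prod_congr rfl fun a _ => by rw [mul_one]

theorem prod_split (f : ZMod p → ℂ) :
    ∏ a : ZMod p, f a = f 0 * ((∏ a ∈ Q p 1, f a) * ∏ a ∈ Q p (-1), f a) := by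
  classical
  have h1 : (univ : Finset (ZMod p)) = {0} ∪ (Q p 1 ∪ Q p (-1)) := by
    ext a
    simp only [mem_univ, mem_union, mem_singleton, mem_Q, true_iff]
    by_cases ha : a = 0
    · left; exact ha
    · right; exact quadraticChar_dichotomy ha
  have hd1 : Disjoint ({0} : Finset (ZMod p)) (Q p 1 ∪ Q p (-1)) := by
    rw [disjoint_singleton_left, mem_union]
    rintro (h | h)
    · exact ne_zero_of_mem (by norm_num) h rfl
    · exact ne_zero_of_mem (by norm_num) h rfl
  have hd2 : Disjoint (Q p 1) (Q p (-1)) := by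
    rw [Finset.disjoint_left]
    intro a h h'
    rw [mem_Q] at h h'
    rw [h] at h'
    norm_num at h'
  rw [h1, prod_union hd1, prod_singleton, prod_union hd2]

/-- `(x - 1) S(x) N(x) = x^p - 1`. -/
theorem S_mul (x : ℂ) : (x - 1) * (S p 1 x * S p (-1) x) = x ^ p - 1 := by
  rw [← prod_all, prod_split]
  congr 2
  exact (AddChar.map_zero_eq_one _).symm

theorem card_Q (hp2 : p ≠ 2) : (Q p 1).card = (p - 1) / 2 ∧ (Q p (-1)).card = (p - 1) / 2 := by
  classical
  have hp := (Fact.out : p.Prime)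
  -- a nonresidue
  obtain ⟨u, hu⟩ := quadraticChar_exists_neg_one (F := ZMod p) (by
    rwa [ZMod.ringChar_zmod_n])
  have hu0 : u ≠ 0 := by rintro rfl; rw [quadraticChar_zero] at hu; norm_num at hu
  have h1 : (Q p 1).card = (Q p (-1)).card := by
    apply Finset.card_bij' (fun a _ => u * a) (fun a _ => u⁻¹ * a)
    · intro a ha
      rw [mem_Q] at ha ⊢
      rw [map_mul, hu, ha]; norm_num
    · intro a ha
      rw [mem_Q] at ha ⊢
      have h2 : quadraticChar (ZMod p) u * quadraticChar (ZMod p) u⁻¹ = 1 := by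
        rw [← map_mul, mul_inv_cancel₀ hu0, map_one]
      rw [hu] at h2
      rw [map_mul, ha]
      linarith
    · intro a _
      rw [← mul_assoc, inv_mul_cancel₀ hu0, one_mul]
    · intro a _
      rw [← mul_assoc, mul_inv_cancel₀ hu0, one_mul]
  have h3 : (univ : Finset (ZMod p)).card = 1 + ((Q p 1).card + (Q p (-1)).card) := by
    have h4 : (univ : Finset (ZMod p)) = {0} ∪ (Q p 1 ∪ Q p (-1)) := by
      ext a
      simp only [mem_univ, mem_union, mem_singleton, mem_Q, true_iff]
      by_cases ha : a = 0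
      · left; exact ha
      · right; exact quadraticChar_dichotomy ha
    have hd1 : Disjoint ({0} : Finset (ZMod p)) (Q p 1 ∪ Q p (-1)) := by
      rw [disjoint_singleton_left, mem_union]
      rintro (h | h)
      · exact ne_zero_of_mem (by norm_num) h rfl
      · exact ne_zero_of_mem (by norm_num) h rfl
    have hd2 : Disjoint (Q p 1) (Q p (-1)) := by
      rw [Finset.disjoint_left]
      intro a h h'
      rw [mem_Q] at h h'
      rw [h] at h'
      norm_num at h'
    rw [h4, card_union_of_disjoint hd1, card_singleton, card_union_of_disjoint hd2]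
  rw [Finset.card_univ, ZMod.card] at h3
  omega

/-- The sum of the residues vanishes for `p > 3`. -/
theorem sum_Q (hp3 : 3 < p) : ∑ a ∈ Q p 1, a = 0 := by
  have hp := (Fact.out : p.Prime)
  have h2 : (2 : ZMod p) ≠ 0 := by
    intro h
    have : ((2 : ℕ) : ZMod p) = 0 := by exact_mod_cast h
    rw [ZMod.natCast_eq_zero_iff] at this
    have := Nat.le_of_dvd (by norm_num) this
    omega
  have h3 : (3 : ZMod p) ≠ 0 := by
    intro h
    have : ((3 : ℕ) : ZMod p) = 0 := by exact_mod_cast h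
    rw [ZMod.natCast_eq_zero_iff] at this
    have := Nat.le_of_dvd (by norm_num) this
    omega
  have h4 : (4 : ZMod p) ≠ 0 := by
    have : (4 : ZMod p) = 2 * 2 := by norm_num
    rw [this]; exact mul_ne_zero h2 h2
  have hchi : quadraticChar (ZMod p) 4 = 1 := by
    have : (4 : ZMod p) = 2 ^ 2 := by norm_num
    rw [this, map_pow]
    exact quadraticChar_sq_one h2
  have h5 : ∑ a ∈ Q p 1, (4 * a) = ∑ a ∈ Q p 1, a := by
    refine Finset.sum_bij' (fun a _ => 4 * a) (fun a _ => 4⁻¹ * a) ?_ ?_ ?_ ?_ ?_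
    · intro a ha
      rw [mem_Q] at ha ⊢
      rw [map_mul, hchi, ha, one_mul]
    · intro a ha
      rw [mem_Q] at ha ⊢
      have h6 : quadraticChar (ZMod p) 4 * quadraticChar (ZMod p) 4⁻¹ = 1 := by
        rw [← map_mul, mul_inv_cancel₀ h4, map_one]
      rw [hchi, one_mul] at h6
      rw [map_mul, h6, ha, one_mul]
    · intro a _
      rw [← mul_assoc, inv_mul_cancel₀ h4, one_mul]
    · intro a _
      rw [← mul_assoc, mul_inv_cancel₀ h4, one_mul]
    · intros; rfl
  rw [← Finset.mul_sum] at h5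
  have h7 : 3 * ∑ a ∈ Q p 1, a = 0 := by
    linear_combination h5
  exact (mul_eq_zero.1 h7).resolve_left h3

theorem prod_E (hp3 : 3 < p) : ∏ a ∈ Q p 1, E p a = 1 := by
  have hgen : ∀ s : Finset (ZMod p), ∏ a ∈ s, E p a = E p (∑ a ∈ s, a) := by
    intro s
    classical
    induction s using Finset.induction_on with
    | empty =>
      rw [prod_empty, sum_empty]
      exact (AddChar.map_zero_eq_one _).symm
    | insert a s ha ih => rw [prod_insert ha, sum_insert ha, ih, E_add]
  have h : ∏ a ∈ Q p 1, E p a = E p (∑ a ∈ Q p 1, a) := hgen _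
  rw [h, sum_Q hp3]
  exact AddChar.map_zero_eq_one _

/-- Duplication relation. -/
theorem rel_two {ε : ℤ} (h2 : (2 : ZMod p) ≠ 0) (x : ℂ) :
    S p ε x * S p ε (-x) =
      (-1) ^ (Q p ε).card * S p (quadraticChar (ZMod p) 2 * ε) (x ^ 2) := by
  unfold S
  rw [← prod_mul h2 (fun a => x ^ 2 - E p a), ← Finset.prod_mul_distrib, ← Finset.prod_const,
    ← Finset.prod_mul_distrib]
  refine Finset.prod_congr rfl fun a _ => ?_
  have : E p (2 * a) = E p a ^ 2 := by
    have := E_nsmul (p := p) 2 a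
    exact_mod_cast this
  rw [this]; ring

/-- Triplication relation. -/
theorem rel_three {ε : ℤ} (h3 : (3 : ZMod p) ≠ 0) (x w : ℂ) (hw : w ^ 2 + w + 1 = 0) :
    S p ε x * S p ε (w * x) * S p ε (w ^ 2 * x) =
      S p (quadraticChar (ZMod p) 3 * ε) (x ^ 3) := by
  unfold S
  rw [← prod_mul h3 (fun a => x ^ 3 - E p a), ← Finset.prod_mul_distrib,
    ← Finset.prod_mul_distrib]
  refine Finset.prod_congr rfl fun a _ => ?_
  have : E p (3 * a) = E p a ^ 3 := by
    have := E_nsmul (p := p) 3 a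
    exact_mod_cast this
  rw [this]
  linear_combination (x * (E p a) ^ 2 - x ^ 2 * w * E p a + (w - 1) * x ^ 3) * hw

/-- Reciprocal relation. -/
theorem rel_inv (hp3 : 3 < p) (hm1 : quadraticChar (ZMod p) (-1) = -1) (hodd : Odd ((p - 1) / 2))
    {x : ℂ} (hx : x ≠ 0) : S p (-1) x = - x ^ ((p - 1) / 2) * S p 1 x⁻¹ := by
  have hc := (card_Q (p := p) (by omega)).1
  have hneg : (-1 : ZMod p) ≠ 0 := by
    rw [neg_ne_zero]; exact one_ne_zero
  have h1 : S p (-1) x = ∏ a ∈ Q p 1, (x - E p (-1 * a)) := by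
    have := prod_mul (ε := 1) hneg (fun a => x - E p a)
    rw [hm1, mul_one] at this
    rw [this]; rfl
  have h2 : x ^ ((p - 1) / 2) * S p 1 x⁻¹ = ∏ a ∈ Q p 1, (x * (x⁻¹ - E p a)) := by
    rw [Finset.prod_mul_distrib, Finset.prod_const, hc]; rfl
  have h3 : ∏ a ∈ Q p 1, (x * (x⁻¹ - E p a)) =
      (∏ a ∈ Q p 1, (-1 : ℂ)) * ((∏ a ∈ Q p 1, E p a) * ∏ a ∈ Q p 1, (x - E p (-1 * a))) := by
    rw [← Finset.prod_mul_distrib, ← Finset.prod_mul_distrib]
    refine Finset.prod_congr rfl fun a _ => ?_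
    have h4 : E p a * E p (-1 * a) = 1 := by
      rw [← E_add]
      have : a + -1 * a = 0 := by ring
      rw [this]
      exact AddChar.map_zero_eq_one _
    rw [mul_sub, mul_inv_cancel₀ hx]
    linear_combination -h4
  rw [Finset.prod_const, hc, hodd.neg_one_pow, prod_E hp3, one_mul] at h3
  rw [neg_mul, h2, h3, ← h1]
  ring

end Q272.Sp
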