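import Pool.Agent.Q272.Sp.Prod

/-! Values at twelfth roots of unity for `p ≡ 19 (mod 24)`, up to sign. -/

namespace Q272.Sp

open Finset

variable {p : ℕ} [Fact p.Prime]

theorem S_ne_zero {x : ℂ} (h : x ^ p ≠ 1) (ε : ℤ) (hε : ε = 1 ∨ ε = -1) : S p ε x ≠ 0 := by
  intro h0
  have h1 := S_mul (p := p) x
  have h2 : x ^ p - 1 = 0 := by
    rw [← h1]
    rcases hε with rfl | rfl <;> rw [h0] <;> ring
  exact h (sub_eq_zero.1 h2)

section

variable {m : ℕ} (hp : p = 24 * m + 19)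
include hp

theorem chi_facts : quadraticChar (ZMod p) 2 = -1 ∧ quadraticChar (ZMod p) 3 = -1 ∧
    quadraticChar (ZMod p) (-1) = -1 := by
  have hp2 : p ≠ 2 := by omega
  have hprime := (Fact.out : p.Prime)
  refine ⟨?_, ?_, ?_⟩
  · have h := legendreSym.at_two hp2
    have h1 : legendreSym p 2 = quadraticChar (ZMod p) 2 := by
      rw [legendreSym]; norm_cast
    rw [← h1, h, ZMod.χ₈_nat_eq_if_mod_eight]
    rw [if_neg (by omega), if_neg (by omega)]
  · have h3 : Fact (Nat.Prime 3) := ⟨by norm_num⟩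
    have h := legendreSym.quadratic_reciprocity_three_mod_four (p := 3) (q := p) (by norm_num)
      (by omega)
    have h1 : legendreSym p ((3 : ℕ) : ℤ) = quadraticChar (ZMod p) 3 := by
      rw [legendreSym]; norm_cast
    have h2 : legendreSym 3 (p : ℤ) = 1 := by
      rw [legendreSym.mod, hp]
      have : ((24 * m + 19 : ℕ) : ℤ) % (3 : ℕ) = 1 := by push_cast; omega
      rw [this]
      exact legendreSym.at_one 3
    rw [← h1]
    first
      | rw [h, h2]
      | (have := h; rw [h2] at this; linarith)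
  · have h := legendreSym.at_neg_one hp2
    have h1 : legendreSym p (-1) = quadraticChar (ZMod p) (-1) := by
      rw [legendreSym]; norm_cast
    rw [← h1, h, ZMod.χ₄_nat_three_mod_four (by omega)]

theorem basic_ne : (2 : ZMod p) ≠ 0 ∧ (3 : ZMod p) ≠ 0 := by
  have h := chi_facts hp
  constructor
  · intro h0
    rw [h0, quadraticChar_zero] at h
    norm_num at h
  · intro h0
    rw [h0, quadraticChar_zero] at h
    norm_num at h

theorem relA (x : ℂ) : S p 1 x * S p 1 (-x) = - S p (-1) (x ^ 2) := by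
  have h := rel_two (p := p) (ε := 1) (basic_ne hp).1 x
  rw [(chi_facts hp).1, (card_Q (p := p) (by omega)).1] at h
  have hodd : Odd ((p - 1) / 2) := ⟨6 * m + 4, by omega⟩
  rw [hodd.neg_one_pow] at h
  rw [h]; ring_nf

theorem relB (x w : ℂ) (hw : w ^ 2 + w + 1 = 0) :
    S p 1 x * S p 1 (w * x) * S p 1 (w ^ 2 * x) = S p (-1) (x ^ 3) := by
  have h := rel_three (p := p) (ε := 1) (basic_ne hp).2 x w hw
  rw [(chi_facts hp).2.1] at h
  rw [h]; norm_num

theorem relC {x : ℂ} (hx : x ≠ 0) : S p (-1) x = - x ^ (12 * m + 9) * S p 1 x⁻¹ := by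
  have hodd : Odd ((p - 1) / 2) := ⟨6 * m + 4, by omega⟩
  have h := rel_inv (p := p) (by omega) (chi_facts hp).2.2 hodd hx
  rw [h]
  congr 3
  omega

/-- The four values up to a common sign. -/
theorem values {t : ℂ} (ht : t ^ 8 - t ^ 4 + 1 = 0) :
    (t ^ 2 - 1) * S p 1 (t ^ 2) ^ 2 = -(t ^ 2 + 1) ∧
    S p 1 (t ^ 2) * S p 1 (t ^ 10) = - t ^ 6 ∧
    S p 1 (t ^ 2) * S p 1 (t ^ 14) = -1 ∧
    S p 1 (t ^ 22) = - t ^ 6 * S p 1 (t ^ 2) := by
  have t12 : t ^ 12 = -1 := by linear_combination (t ^ 4 + 1) * ht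
  have t24 : t ^ 24 = 1 := by linear_combination (t ^ 12 - 1) * t12
  have t0 : t ≠ 0 := by rintro rfl; norm_num at ht
  have hpw : ∀ k, t ^ (24 * k) = 1 := fun k => by rw [pow_mul, t24, one_pow]
  -- powers with exponent `n = 12 m + 9`
  have hn : ∀ k, (t ^ (2 * k)) ^ (12 * m + 9) = t ^ (18 * k) := by
    intro k
    rw [← pow_mul, show 2 * k * (12 * m + 9) = 24 * (k * m) + 18 * k by ring, pow_add, hpw, one_mul]
  have hpp : ∀ k, (t ^ k) ^ p = t ^ (19 * k) := by
    intro k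
    rw [← pow_mul, hp, show k * (24 * m + 19) = 24 * (k * m) + 19 * k by ring, pow_add, hpw, one_mul]
  have hinv : ∀ a b, a + b = 24 → (t ^ a)⁻¹ = t ^ b := by
    intro a b hab
    exact inv_eq_of_mul_eq_one_right (by rw [← pow_add, hab, t24])
  -- non-vanishing
  have h4ne : t ^ 4 ≠ 1 := by
    intro h
    have : (1:ℂ) = 0 := by linear_combination ht - (t ^ 4) * h
    exact one_ne_zero this
  have h8ne : t ^ 8 ≠ 1 := by
    intro h
    have h1 : t ^ 4 = 2 := by linear_combination h - ht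
    have : (3:ℂ) = 0 := by linear_combination h - (t ^ 4 + 2) * h1
    norm_num at this
  have h16ne : (t ^ 16) ^ p ≠ 1 := by
    rw [hpp]
    intro h
    have h1 : t ^ (19 * 16) = t ^ 16 := by
      rw [show 19 * 16 = 24 * 12 + 16 by norm_num, pow_add, hpw, one_mul]
    rw [h1] at h
    have h2 : t ^ 4 = -1 := by linear_combination (-1 : ℂ) * h + t ^ 4 * t12
    have : (3:ℂ) = 0 := by linear_combination ht - (t ^ 4 - 2) * h2
    norm_num at this
  have h8ne' : (t ^ 8) ^ p ≠ 1 := by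
    rw [hpp]
    intro h
    have h1 : t ^ (19 * 8) = t ^ 8 := by
      rw [show 19 * 8 = 24 * 6 + 8 by norm_num, pow_add, hpw, one_mul]
    rw [h1] at h
    exact h8ne h
  have h18ne : (t ^ 18) ^ p ≠ 1 := by
    rw [hpp]
    intro h
    have h1 : t ^ (19 * 18) = t ^ 6 := by
      rw [show 19 * 18 = 24 * 14 + 6 by norm_num, pow_add, hpw, one_mul]
    rw [h1] at h
    have : (2:ℂ) = 0 := by linear_combination t12 - (t ^ 6 + 1) * h
    norm_num at this
  -- S(t^4) = 1
  have e1 : S p 1 (t ^ 4) = 1 := by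
    have h := relA hp (t ^ 4)
    have h1 : -(t ^ 4) = t ^ 16 := by linear_combination (-(t ^ 4)) * t12
    have h2 : (t ^ 4) ^ 2 = t ^ 8 := by ring
    have h3 := relC hp (x := t ^ 8) (pow_ne_zero _ t0)
    rw [show (t ^ 8) ^ (12 * m + 9) = t ^ (18 * 4) from hn 4, show 18 * 4 = 24 * 3 by norm_num, hpw,
      hinv 8 16 (by norm_num)] at h3
    rw [h1, h2, h3] at h
    have hne := S_ne_zero h16ne 1 (Or.inl rfl)
    have h4 : (S p 1 (t ^ 4) - 1) * S p 1 (t ^ 16) = 0 := by linear_combination h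
    exact sub_eq_zero.1 ((mul_eq_zero.1 h4).resolve_right hne)
  have e2 : S p 1 (t ^ 20) = 1 := by
    have h := relA hp (t ^ 20)
    have h1 : -(t ^ 20) = t ^ 8 := by linear_combination (-(t ^ 8)) * t12
    have h2 : (t ^ 20) ^ 2 = t ^ 16 := by
      rw [← pow_mul, show 20 * 2 = 24 * 1 + 16 by norm_num, pow_add, hpw, one_mul]
    have h3 := relC hp (x := t ^ 16) (pow_ne_zero _ t0)
    rw [show (t ^ 16) ^ (12 * m + 9) = t ^ (18 * 8) from hn 8, show 18 * 8 = 24 * 6 by norm_num,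
      hpw, hinv 16 8 (by norm_num)] at h3
    rw [h1, h2, h3] at h
    have hne := S_ne_zero h8ne' 1 (Or.inl rfl)
    have h4 : (S p 1 (t ^ 20) - 1) * S p 1 (t ^ 8) = 0 := by linear_combination h
    exact sub_eq_zero.1 ((mul_eq_zero.1 h4).resolve_right hne)
  have n4 : S p (-1) (t ^ 4) = 1 := by
    have h3 := relC hp (x := t ^ 4) (pow_ne_zero _ t0)
    rw [show (t ^ 4) ^ (12 * m + 9) = t ^ (18 * 2) from hn 2, hinv 4 20 (by norm_num), e2] at h3
    rw [h3]; linear_combination (-(t ^ 24)) * t12 + t24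
  have n20 : S p (-1) (t ^ 20) = 1 := by
    have h3 := relC hp (x := t ^ 20) (pow_ne_zero _ t0)
    rw [show (t ^ 20) ^ (12 * m + 9) = t ^ (18 * 10) from hn 10, hinv 20 4 (by norm_num), e1,
      show 18 * 10 = 24 * 7 + 12 by norm_num, pow_add, hpw, t12] at h3
    rw [h3]; ring
  -- the products
  have r1 : S p 1 (t ^ 2) * S p 1 (t ^ 14) = -1 := by
    have h := relA hp (t ^ 2)
    have h1 : -(t ^ 2) = t ^ 14 := by linear_combination (-(t ^ 2)) * t12
    have h2 : (t ^ 2) ^ 2 = t ^ 4 := by ring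
    rw [h1, h2, n4] at h
    exact h
  have r2 : S p 1 (t ^ 10) * S p 1 (t ^ 22) = -1 := by
    have h := relA hp (t ^ 10)
    have h1 : -(t ^ 10) = t ^ 22 := by linear_combination (-(t ^ 10)) * t12
    have h2 : (t ^ 10) ^ 2 = t ^ 20 := by ring
    rw [h1, h2, n20] at h
    exact h
  have r3 : S p 1 (t ^ 2) * S p 1 (t ^ 10) = - t ^ 6 := by
    have hw : (t ^ 8) ^ 2 + t ^ 8 + 1 = 0 := by
      linear_combination t ^ 4 * t12 + ht
    have h := relB hp (t ^ 2) (t ^ 8) hw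
    have h1 : t ^ 8 * t ^ 2 = t ^ 10 := by ring
    have h2 : (t ^ 8) ^ 2 * t ^ 2 = t ^ 18 := by ring
    have h3 : (t ^ 2) ^ 3 = t ^ 6 := by ring
    have h4 := relC hp (x := t ^ 6) (pow_ne_zero _ t0)
    rw [show (t ^ 6) ^ (12 * m + 9) = t ^ (18 * 3) from hn 3, hinv 6 18 (by norm_num),
      show 18 * 3 = 24 * 2 + 6 by norm_num, pow_add, hpw, one_mul] at h4
    rw [h1, h2, h3, h4] at h
    have hne := S_ne_zero h18ne 1 (Or.inl rfl)
    exact mul_right_cancel₀ hne h
  have hA0 : S p 1 (t ^ 2) ≠ 0 := by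
    intro h0
    rw [h0, zero_mul] at r1
    norm_num at r1
  have hB0 : S p 1 (t ^ 10) ≠ 0 := by
    intro h0
    rw [h0, zero_mul] at r2
    norm_num at r2
  have r4 : S p 1 (t ^ 22) = - t ^ 6 * S p 1 (t ^ 2) := by
    have h5 : S p 1 (t ^ 10) * S p 1 (t ^ 22) = S p 1 (t ^ 10) * (- t ^ 6 * S p 1 (t ^ 2)) := by
      rw [r2]
      linear_combination (t ^ 6) * r3 - t12
    exact mul_left_cancel₀ hB0 h5
  refine ⟨?_, r3, r1, r4⟩
  -- the square
  have n2 : S p (-1) (t ^ 2) = S p 1 (t ^ 2) := by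
    have h3 := relC hp (x := t ^ 2) (pow_ne_zero _ t0)
    rw [show (t ^ 2) ^ (12 * m + 9) = t ^ (18 * 1) from hn 1, hinv 2 22 (by norm_num), r4] at h3
    rw [h3]
    linear_combination (S p 1 (t ^ 2)) * t24
  have h6 := S_mul (p := p) (t ^ 2)
  rw [n2, hpp, show 19 * 2 = 24 * 1 + 14 by norm_num, pow_add, hpw, one_mul] at h6
  linear_combination h6 + t ^ 2 * t12

end

end Q272.Sp
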